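import Pool.Agent.helper61.Y2.Spec

set_option autoImplicit false

namespace H61.Y2

open H61.Yorioka Cardinal

lemma FA_down (f : ℕ → ℕ) : ∀ A ∈ yoriokaIdeal f, ∀ B ⊆ A, B ∈ yoriokaIdeal f := by
  rintro A ⟨σ, h1, h2⟩ B hBA
  exact ⟨σ, h1, hBA.trans h2⟩

lemma FA_singleton {f : ℕ → ℕ} (hf : StrictMono f) (x : ℕ → Bool) :
    ({x} : Set (ℕ → Bool)) ∈ yoriokaIdeal f := by
  refine ⟨fun n => res x (f (n ^ n)), ?_, ?_⟩
  · intro k
    refine ⟨k + 1, fun n hn => ?_⟩
    simp only [ht, res_length]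
    apply hf.monotone
    exact Nat.pow_le_pow_right (by omega) (by omega)
  · rintro _ rfl
    exact mem_limSet_iff.mpr fun m => ⟨m, le_rfl, isInit_res _ _⟩

lemma FA_univ (hY0F : Y0F_stmt) {f : ℕ → ℕ} (hf : StrictMono f) :
    (Set.univ : Set (ℕ → Bool)) ∉ yoriokaIdeal f := by
  intro h
  have h1 : cof (yoriokaIdeal f) ≤ 1 := by
    refine csInf_le' ⟨{Set.univ}, ?_, ?_, ?_⟩
    · rintro _ rfl
      exact h
    · intro A _
      exact ⟨Set.univ, rfl, Set.subset_univ _⟩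
    · rw [Cardinal.mk_singleton]
  have h2 := (hY0F f hf).trans h1
  exact absurd h2 (not_le.2 Cardinal.one_lt_aleph0)

theorem FA (hSQA : SQA_stmt) (hSQC : SQC_stmt) (hY0F : Y0F_stmt) : FA_stmt := by
  intro f g k hf hg hSq
  constructor
  · by_contra hcon
    rw [not_le] at hcon
    have hne : {κ | ∃ J : Set (Set (ℕ → Bool)), J ⊆ yoriokaIdeal g ∧ ⋃₀ J ∉ yoriokaIdeal g ∧
        κ = #J}.Nonempty := by
      refine ⟨_, Set.range (fun x => ({x} : Set (ℕ → Bool))), ?_, ?_, rfl⟩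
      · rintro _ ⟨x, rfl⟩
        exact FA_singleton hg x
      · have : ⋃₀ Set.range (fun x => ({x} : Set (ℕ → Bool))) = Set.univ := by
          ext x
          simp
        rw [this]
        exact FA_univ hY0F hg
    obtain ⟨J, h1, h2, h3⟩ := csInf_mem hne
    have h3' : add (yoriokaIdeal g) = #J := h3
    obtain ⟨B, hB⟩ := hSQA _ _ (yoriokaIdeal f) (IRel (yoriokaIdeal g)) k Set.univ hSq
      {A | A.1 ∈ J} (Set.subset_univ _) (by
        refine lt_of_le_of_lt ?_ (h3' ▸ hcon)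
        exact Cardinal.mk_le_of_injective
          (f := fun A : {A : {A // A ∈ yoriokaIdeal g} | A.1 ∈ J} => (⟨A.1.1, A.2⟩ : J))
          (fun A A' hAA => by
            have := congrArg Subtype.val hAA
            exact Subtype.ext (Subtype.ext this)))
    apply h2
    refine FA_down g B.1 B.2 _ ?_
    apply Set.sUnion_subset
    intro A hA
    exact hB ⟨A, h1 hA⟩ hA
  · obtain ⟨D, hD, hD'⟩ := hSQC _ _ (yoriokaIdeal f) (IRel (yoriokaIdeal g)) k Set.univ
      (hY0F f hf) hSq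
    refine le_trans (csInf_le' ⟨Subtype.val '' D, ?_, ?_, rfl⟩) (Cardinal.mk_image_le.trans hD)
    · rintro _ ⟨A, -, rfl⟩
      exact A.2
    · intro A hA
      obtain ⟨B, hB, hAB⟩ := hD' ⟨A, hA⟩ (Set.mem_univ _)
      exact ⟨B.1, ⟨B, hB, rfl⟩, hAB⟩

end H61.Y2
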